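import Pool.Agent.Helper34.EC.Defs

/-!
# EC-A4: vanishing along the diagonal and the fraction field
-/

set_option autoImplicit false
set_option linter.unusedSectionVars false

namespace Pool.Agent.Helper36.EC

open Polynomial TensorProduct Pool.Agent.Helper34.EC

section

variable {F A L : Type} [Field F] [CommRing A] [IsDomain A] [Algebra F A] [Field L]
  [Algebra A L] [IsFractionRing A L] [Algebra F L] [IsScalarTower F A L]

/-- the map of the squares -/
noncomputable def Phi (F A L : Type) [Field F] [CommRing A] [Algebra F A] [Field L]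
    [Algebra A L] [Algebra F L] [IsScalarTower F A L] : A ⊗[F] A →ₐ[F] L ⊗[F] L :=
  Algebra.TensorProduct.map (IsScalarTower.toAlgHom F A L) (IsScalarTower.toAlgHom F A L)

theorem Phi_tmul (a b : A) : Phi F A L (a ⊗ₜ[F] b) = algebraMap A L a ⊗ₜ[F] algebraMap A L b := by
  simp [Phi]

theorem Phi_injective : Function.Injective (Phi F A L) := by
  have h : Function.Injective (IsScalarTower.toAlgHom F A L).toLinearMap :=
    IsFractionRing.injective A L
  exact TensorProduct.map_injective_of_flat_flat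
    (IsScalarTower.toAlgHom F A L).toLinearMap (IsScalarTower.toAlgHom F A L).toLinearMap h h

/-- `y` comes from the `k`-th power of the ideal of the diagonal up to a denominator -/
def Com (F A L : Type) [Field F] [CommRing A] [Algebra F A] [Field L]
    [Algebra A L] [Algebra F L] [IsScalarTower F A L] (k : ℕ) (y : L ⊗[F] L) : Prop :=
  ∃ b : A, b ≠ 0 ∧ ∃ z ∈ (KaehlerDifferential.ideal F A) ^ k, Phi F A L (b ⊗ₜ[F] b) * y = Phi F A L z

theorem Com.zero (k : ℕ) : Com F A L k 0 :=
  ⟨1, one_ne_zero, 0, Ideal.zero_mem _, by simp⟩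

theorem tmul_mul_sq (a b : A) : (a * b) ⊗ₜ[F] (a * b) = (a ⊗ₜ[F] a) * (b ⊗ₜ[F] b) := by
  rw [Algebra.TensorProduct.tmul_mul_tmul]

theorem Com.add {k : ℕ} {x y : L ⊗[F] L} (hx : Com F A L k x) (hy : Com F A L k y) :
    Com F A L k (x + y) := by
  obtain ⟨b, hb, z, hz, h⟩ := hx
  obtain ⟨c, hc, w, hw, h'⟩ := hy
  refine ⟨b * c, mul_ne_zero hb hc, (c ⊗ₜ[F] c) * z + (b ⊗ₜ[F] b) * w,
    Ideal.add_mem _ (Ideal.mul_mem_left _ _ hz) (Ideal.mul_mem_left _ _ hw), ?_⟩
  rw [tmul_mul_sq, map_add, map_mul, map_mul, map_mul, ← h, ← h']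
  ring

theorem Com.mul {k l : ℕ} {x y : L ⊗[F] L} (hx : Com F A L k x) (hy : Com F A L l y) :
    Com F A L (k + l) (x * y) := by
  obtain ⟨b, hb, z, hz, h⟩ := hx
  obtain ⟨c, hc, w, hw, h'⟩ := hy
  refine ⟨b * c, mul_ne_zero hb hc, z * w, ?_, ?_⟩
  · rw [pow_add]
    exact Ideal.mul_mem_mul hz hw
  · rw [tmul_mul_sq, map_mul, map_mul, ← h, ← h']
    ring

theorem Com.all (y : L ⊗[F] L) : Com F A L 0 y := by
  induction y using TensorProduct.induction_on with
  | zero => exact Com.zero 0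
  | add x y hx hy => exact hx.add hy
  | tmul l l' =>
    obtain ⟨a, b, hb, rfl⟩ := IsFractionRing.div_surjective (A := A) l
    obtain ⟨a', b', hb', rfl⟩ := IsFractionRing.div_surjective (A := A) l'
    have hb0 : b ≠ 0 := nonZeroDivisors.ne_zero hb
    have hb0' : b' ≠ 0 := nonZeroDivisors.ne_zero hb'
    have h1 : algebraMap A L b ≠ 0 := by
      rw [Ne, IsFractionRing.to_map_eq_zero_iff]; exact hb0
    have h2 : algebraMap A L b' ≠ 0 := by
      rw [Ne, IsFractionRing.to_map_eq_zero_iff]; exact hb0'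
    refine ⟨b * b', mul_ne_zero hb0 hb0', (a * b') ⊗ₜ[F] (a' * b), by simp, ?_⟩
    rw [Phi_tmul, Phi_tmul, Algebra.TensorProduct.tmul_mul_tmul]
    congr 1
    · rw [map_mul, map_mul]; field_simp
    · rw [map_mul, map_mul]; field_simp

theorem Com.gen (l : L) : Com F A L 1 ((1 : L) ⊗ₜ[F] l - l ⊗ₜ[F] (1 : L)) := by
  obtain ⟨a, b, hb, rfl⟩ := IsFractionRing.div_surjective (A := A) l
  have hb0 : b ≠ 0 := nonZeroDivisors.ne_zero hb
  have h1 : algebraMap A L b ≠ 0 := by
    rw [Ne, IsFractionRing.to_map_eq_zero_iff]; exact hb0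
  refine ⟨b, hb0, b ⊗ₜ[F] a - a ⊗ₜ[F] b, ?_, ?_⟩
  · rw [pow_one]
    rw [KaehlerDifferential.ideal, RingHom.mem_ker]
    simp [mul_comm]
  · rw [Phi_tmul, mul_sub, Algebra.TensorProduct.tmul_mul_tmul,
      Algebra.TensorProduct.tmul_mul_tmul, mul_one, map_sub, Phi_tmul, Phi_tmul]
    congr 2
    · rw [mul_div_cancel₀ _ h1]
    · rw [mul_div_cancel₀ _ h1]

theorem Com.ideal_one {y : L ⊗[F] L} (hy : y ∈ KaehlerDifferential.ideal F L) :
    Com F A L 1 y := by
  rw [← KaehlerDifferential.span_range_eq_ideal] at hy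
  induction hy using Submodule.span_induction with
  | mem x hx =>
    obtain ⟨l, rfl⟩ := hx
    exact Com.gen l
  | zero => exact Com.zero 1
  | add x y _ _ hx hy => exact hx.add hy
  | smul c x _ hx =>
    rw [smul_eq_mul]
    have := (Com.all (F := F) (A := A) c).mul hx
    rwa [zero_add] at this

theorem Com.ideal_pow (k : ℕ) {y : L ⊗[F] L} (hy : y ∈ KaehlerDifferential.ideal F L ^ k) :
    Com F A L k y := by
  induction k generalizing y with
  | zero => exact Com.all y
  | succ k ih =>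
    rw [pow_succ] at hy
    induction hy using Submodule.mul_induction_on' with
    | mem_mul_mem x hx y hy => exact (ih hx).mul (Com.ideal_one hy)
    | add x _ y _ hx hy => exact hx.add hy

end

end Pool.Agent.Helper36.EC

namespace Pool.Agent.Helper36.EC

open Polynomial TensorProduct Pool.Agent.Helper34.EC

/-- EC-A4 -/
theorem van_frac {F A L : Type} [Field F] [CommRing A] [IsDomain A] [Algebra F A] [Field L]
    [Algebra A L] [IsFractionRing A L] [Algebra F L] [IsScalarTower F A L] (V : Submodule F A)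
    (γ : ℕ) (h : Van F A V γ) :
    ∀ x ∈ sq (V.map (IsScalarTower.toAlgHom F A L).toLinearMap), x ≠ 0 →
      x ∉ (KaehlerDifferential.ideal F L) ^ γ := by
  intro x hx hx0 hmem
  have h1 : ∃ y ∈ Helper34.EC.sq V, Phi F A L y = x := by
    unfold Helper34.EC.sq at hx
    clear hx0 hmem
    induction hx using Submodule.span_induction with
    | mem x hx =>
      obtain ⟨a, ha, b, hb, rfl⟩ := hx
      obtain ⟨a', ha', rfl⟩ := ha
      obtain ⟨b', hb', rfl⟩ := hb
      exact ⟨a' ⊗ₜ[F] b', Submodule.subset_span ⟨a', ha', b', hb', rfl⟩, Phi_tmul a' b'⟩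
    | zero => exact ⟨0, Submodule.zero_mem _, map_zero _⟩
    | add x y _ _ hx hy =>
      obtain ⟨x', hx', rfl⟩ := hx
      obtain ⟨y', hy', rfl⟩ := hy
      exact ⟨x' + y', Submodule.add_mem _ hx' hy', map_add _ _ _⟩
    | smul c x _ hx =>
      obtain ⟨x', hx', rfl⟩ := hx
      exact ⟨c • x', Submodule.smul_mem _ _ hx', map_smul _ _ _⟩
  obtain ⟨y, hy, rfl⟩ := h1
  obtain ⟨b, hb, z, hz, hbz⟩ := Com.ideal_pow (A := A) γ hmem
  rw [← map_mul] at hbz
  have h2 := Phi_injective hbz
  refine h y hy ?_ b hb ?_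
  · rintro rfl
    exact hx0 (map_zero _)
  · rw [h2]
    exact hz

end Pool.Agent.Helper36.EC
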